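import Mathlib

/-!
# Abstract smoothings of finite algebras and their approximation degree

The definitions of problem MP_a8f336_ag.
-/

set_option autoImplicit false

universe u

namespace Pool.Agent.D0H93.AD

open Module TensorProduct

/-- An *abstract smoothing* of a `k`-algebra `A`: a finite flat `k[[t]]`-algebra `𝒜` (`carrier`)
with geometrically reduced generic fibre `k((t)) ⊗ 𝒜` and special fibre `𝒜 / t 𝒜` isomorphic to
`A`. The isomorphism is given by a surjective homomorphism `𝒜 → A` of `k`-algebras with kernel
`t 𝒜`. -/
structure AbstractSmoothing (k : Type u) [Field k] (A : Type u) [CommRing A] [Algebra k A] where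
  carrier : Type u
  [commRing : CommRing carrier]
  [algebra : Algebra (PowerSeries k) carrier]
  finite : Module.Finite (PowerSeries k) carrier
  flat : Module.Flat (PowerSeries k) carrier
  geometricallyReduced :
    Algebra.IsGeometricallyReduced (LaurentSeries k) (LaurentSeries k ⊗[PowerSeries k] carrier)
  toSpecial : carrier →+* A
  surjective : Function.Surjective toSpecial
  ker_eq : RingHom.ker toSpecial =
    Ideal.span {algebraMap (PowerSeries k) carrier PowerSeries.X}
  map_const : ∀ c : k, toSpecial (algebraMap (PowerSeries k) carrier (PowerSeries.C c)) =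
    algebraMap k A c

attribute [instance] AbstractSmoothing.commRing AbstractSmoothing.algebra

/-- The finite scheme `Spec A` is smoothable: there is an abstract smoothing. -/
def IsSmoothable (k : Type u) [Field k] (A : Type u) [CommRing A] [Algebra k A] : Prop :=
  Nonempty (AbstractSmoothing k A)

/-- `ad (𝒜; e)`: the maximum of the valuations `ν (c_ij^l)` of the nonzero structure constants
`c_ij^l` of `𝒜` in the basis `e` (`e_i e_j = ∑_l c_ij^l e_l`). -/
noncomputable def ad {k : Type u} [Field k] {B : Type u} [CommRing B] [Algebra (PowerSeries k) B]
    {d : ℕ} (e : Basis (Fin d) (PowerSeries k) B) : ℕ :=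
  sSup {m | ∃ i j l, e.repr (e i * e j) l ≠ 0 ∧ m = (e.repr (e i * e j) l).order.toNat}

namespace AbstractSmoothing

variable {k : Type u} [Field k] {A : Type u} [CommRing A] [Algebra k A]

/-- The abstract smoothing is completely split: the generic fibre is a product of `d = dim A`
copies of `k((t))`. -/
def IsCompletelySplit (S : AbstractSmoothing k A) : Prop :=
  Nonempty ((LaurentSeries k ⊗[PowerSeries k] S.carrier) ≃ₐ[LaurentSeries k]
    (Fin (finrank k A) → LaurentSeries k))

/-- The approximation degree of an abstract smoothing `𝒜`: the minimum of `ad (𝒜; e)` over all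
`k[[t]]`-bases `e` of `𝒜`. -/
noncomputable def approximationDegree (S : AbstractSmoothing k A) : ℕ :=
  sInf {m | ∃ e : Basis (Fin (finrank k A)) (PowerSeries k) S.carrier, m = ad e}

end AbstractSmoothing

end Pool.Agent.D0H93.AD
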