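import Pool.Agent.H19VF.E_Dvr

/-!
# Finite separable extensions of `k((t))`, `k` algebraically closed, embed in `k((s))`
-/

set_option autoImplicit false

universe u

namespace Pool.Agent.D0H93.AD

open Pool.Agent.H19VF

theorem embed_finite (k : Type u) [Field k] [IsAlgClosed k] (L : Type u) [Field L]
    [Algebra (LaurentSeries k) L] [FiniteDimensional (LaurentSeries k) L]
    [Algebra.IsSeparable (LaurentSeries k) L] :
    ∃ (g : L →+* LaurentSeries k) (φ : PowerSeries k →+* PowerSeries k),
      (∀ a, g (algebraMap (LaurentSeries k) L (algebraMap (PowerSeries k) (LaurentSeries k) a)) =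
        algebraMap (PowerSeries k) (LaurentSeries k) (φ a)) ∧
      (∀ a, PowerSeries.constantCoeff (φ a) = PowerSeries.constantCoeff a) ∧
      ∀ c : k, φ (PowerSeries.C c) = PowerSeries.C c := by
  classical
  let iK : Algebra (PowerSeries k) L :=
    ((algebraMap (LaurentSeries k) L).comp (algebraMap (PowerSeries k) (LaurentSeries k))).toAlgebra
  let iK' : Algebra k L := ((algebraMap (PowerSeries k) L).comp (algebraMap k (PowerSeries k))).toAlgebra
  have : IsScalarTower (PowerSeries k) (LaurentSeries k) L :=
    IsScalarTower.of_algebraMap_eq fun _ => rfl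
  have : IsScalarTower k (PowerSeries k) L := IsScalarTower.of_algebraMap_eq fun c => rfl
  have hPL : Function.Injective (algebraMap (PowerSeries k) (LaurentSeries k)) :=
    IsFractionRing.injective _ _
  have : FaithfulSMul (PowerSeries k) L :=
    (faithfulSMul_iff_algebraMap_injective _ _).2
      ((algebraMap (LaurentSeries k) L).injective.comp hPL)
  let B := integralClosure (PowerSeries k) L
  have : IsDedekindDomain B := integralClosure.isDedekindDomain (PowerSeries k) (LaurentSeries k) L
  have : IsFractionRing B L :=
    integralClosure.isFractionRing_of_finite_extension (LaurentSeries k) L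
  have : Algebra.IsIntegral (PowerSeries k) B := inferInstance
  have : FaithfulSMul (PowerSeries k) B := inferInstance
  have hinjB : Function.Injective (algebraMap (PowerSeries k) B) :=
    FaithfulSMul.algebraMap_injective _ _
  obtain ⟨P, hPmax, hPcomap⟩ := Ideal.exists_ideal_over_maximal_of_isIntegral (S := B)
    (IsLocalRing.maximalIdeal (PowerSeries k)) (by
      rw [(RingHom.injective_iff_ker_eq_bot _).1 hinjB]
      exact bot_le)
  have hXm : (PowerSeries.X : PowerSeries k) ∈ IsLocalRing.maximalIdeal (PowerSeries k) := by
    rw [IsLocalRing.mem_maximalIdeal, mem_nonunits_iff, PowerSeries.isUnit_iff_constantCoeff,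
      PowerSeries.constantCoeff_X]
    exact not_isUnit_zero
  have hXP : algebraMap (PowerSeries k) B PowerSeries.X ∈ P := by
    rw [← Ideal.mem_comap, hPcomap]
    exact hXm
  have hP0 : P ≠ ⊥ := by
    intro hb
    rw [hb, Ideal.mem_bot] at hXP
    exact PowerSeries.X_ne_zero (hinjB (hXP.trans (map_zero _).symm))
  have : P.IsPrime := hPmax.isPrime
  let O := Localization.AtPrime P
  have : IsDiscreteValuationRing O :=
    IsLocalization.AtPrime.isDiscreteValuationRing_of_dedekind_domain B hP0 O
  have hmem : ∀ b : B, b ∈ P → algebraMap B O b ∈ IsLocalRing.maximalIdeal O := fun b hb =>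
    (IsLocalization.AtPrime.to_map_mem_maximal_iff O P b).2 hb
  have hdec : ∀ a : PowerSeries k, algebraMap (PowerSeries k) B a =
      algebraMap k B (PowerSeries.constantCoeff a) + algebraMap (PowerSeries k) B
        (PowerSeries.X * (PowerSeries.mk fun n => PowerSeries.coeff (n + 1) a)) := by
    intro a
    have h1 : a = algebraMap k (PowerSeries k) (PowerSeries.constantCoeff a) +
        PowerSeries.X * (PowerSeries.mk fun n => PowerSeries.coeff (n + 1) a) := by
      ext n
      cases n with
      | zero => simp
      | succ n =>
        rw [map_add, PowerSeries.coeff_succ_X_mul, PowerSeries.coeff_mk,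
          PowerSeries.algebraMap_apply, PowerSeries.coeff_C, if_neg (by omega), zero_add]
    conv_lhs => rw [h1]
    rw [map_add, ← IsScalarTower.algebraMap_apply k (PowerSeries k) B]
  have hdecO : ∀ a : PowerSeries k, ∃ x ∈ IsLocalRing.maximalIdeal O,
      algebraMap B O (algebraMap (PowerSeries k) B a) =
        algebraMap k O (PowerSeries.constantCoeff a) + x := by
    intro a
    refine ⟨algebraMap B O (algebraMap (PowerSeries k) B
        (PowerSeries.X * (PowerSeries.mk fun n => PowerSeries.coeff (n + 1) a))), ?_, ?_⟩
    · apply hmem
      rw [map_mul]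
      exact P.mul_mem_right _ hXP
    · rw [IsScalarTower.algebraMap_apply k B O, ← map_add, ← hdec]
  have hsurj : Function.Surjective (algebraMap k (IsLocalRing.ResidueField O)) := by
    have hint : ∀ b : B, IsIntegral k (IsLocalRing.residue O (algebraMap B O b)) := by
      intro b
      have hb : IsIntegral (PowerSeries k) b := Algebra.IsIntegral.isIntegral b
      refine hb.map_of_comp_eq (PowerSeries.constantCoeff (R := k))
        ((IsLocalRing.residue O).comp (algebraMap B O)) ?_
      ext a
      change algebraMap k (IsLocalRing.ResidueField O) (PowerSeries.constantCoeff a) =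
        IsLocalRing.residue O (algebraMap B O (algebraMap (PowerSeries k) B a))
      obtain ⟨x, hx, hx2⟩ := hdecO a
      rw [hx2, map_add, (IsLocalRing.residue_eq_zero_iff x).2 hx, add_zero]
      rfl
    have : Algebra.IsIntegral k (IsLocalRing.ResidueField O) := by
      constructor
      intro z
      obtain ⟨x, rfl⟩ := IsLocalRing.residue_surjective z
      obtain ⟨b, s, rfl⟩ := IsLocalization.exists_mk'_eq P.primeCompl x
      have h1 : IsLocalRing.residue O (algebraMap B O (s : B)) ≠ 0 := by
        intro h0
        rw [IsLocalRing.residue_eq_zero_iff] at h0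
        exact s.2 ((IsLocalization.AtPrime.to_map_mem_maximal_iff O P (s : B)).1 h0)
      have h2 : IsLocalRing.residue O (IsLocalization.mk' O b s) =
          IsLocalRing.residue O (algebraMap B O b) *
            (IsLocalRing.residue O (algebraMap B O (s : B)))⁻¹ := by
        rw [eq_mul_inv_iff_mul_eq₀ h1, ← map_mul, IsLocalization.mk'_spec]
      rw [h2]
      exact (hint b).mul ((hint (s : B)).isAlgebraic.inv.isIntegral)
    exact (IsAlgClosed.algebraMap_bijective_of_isIntegral (k := k)
      (K := IsLocalRing.ResidueField O)).2
  obtain ⟨f, hf1, hf2⟩ := dvr_expand k O hsurj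
  have hBO : Function.Injective (algebraMap B O) :=
    IsLocalization.injective O P.primeCompl_le_nonZeroDivisors
  let φ : B →+* LaurentSeries k := ((algebraMap (PowerSeries k) (LaurentSeries k)).comp
    (f : O →+* PowerSeries k)).comp (algebraMap B O)
  have hφ : Function.Injective φ := (hPL.comp hf1).comp hBO
  let g : L →+* LaurentSeries k := IsFractionRing.lift hφ
  refine ⟨g, ((f : O →+* PowerSeries k).comp (algebraMap B O)).comp
    (algebraMap (PowerSeries k) B), fun a => ?_, fun a => ?_, fun c => ?_⟩
  · have h1 : algebraMap (LaurentSeries k) L (algebraMap (PowerSeries k) (LaurentSeries k) a) =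
        algebraMap B L (algebraMap (PowerSeries k) B a) := rfl
    rw [h1]
    exact IsFractionRing.lift_algebraMap (g := φ) hφ _
  · obtain ⟨x, hx, hx2⟩ := hdecO a
    change PowerSeries.constantCoeff (f (algebraMap B O (algebraMap (PowerSeries k) B a))) = _
    rw [hx2, map_add, map_add, (hf2 x).1 hx, add_zero, f.commutes, PowerSeries.algebraMap_apply,
      PowerSeries.constantCoeff_C]
    rfl
  · change f (algebraMap B O (algebraMap (PowerSeries k) B (PowerSeries.C c))) = _
    have h1 : algebraMap B O (algebraMap (PowerSeries k) B (PowerSeries.C c)) =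
        algebraMap k O c := rfl
    rw [h1, f.commutes]
    rfl

end Pool.Agent.D0H93.AD
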