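import Mathlib

/-!
# Generic bases of finite-dimensional commutative algebras

Every finite-dimensional commutative algebra over an infinite field has a basis such that all
structure constants are nonzero.
-/

set_option autoImplicit false

universe u v

namespace Pool.Agent.D0H93.AD

open Module

variable {k : Type u} [Field k]

section Vec

variable {A : Type v} [AddCommGroup A] [Module k A]

/-- An independent family can be extended to a maximal one with prescribed positions. -/
theorem exists_family [Module.Finite k A] {d m : ℕ} (hd : finrank k A = d) (ι : Fin m → Fin d)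
    (hι : Function.Injective ι) (f : Fin m → A) (hf : LinearIndependent k f) :
    ∃ w : Fin d → A, LinearIndependent k w ∧ ∀ i, w (ι i) = f i := by
  classical
  let b := Basis.sumExtend hf
  have hfin : Finite (Fin m ⊕ Basis.sumExtendIndex hf) := Module.Finite.finite_basis b
  have hfin2 : Finite (Basis.sumExtendIndex hf) := Finite.sum_right (Fin m)
  have : Fintype (Basis.sumExtendIndex hf) := Fintype.ofFinite _
  have hc1 : m + Fintype.card (Basis.sumExtendIndex hf) = d := by
    rw [← hd, Module.finrank_eq_card_basis b, Fintype.card_sum, Fintype.card_fin]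
  have : Fintype ↥(Set.range ι)ᶜ := Fintype.ofFinite _
  let e1 : Fin m ⊕ ↥(Set.range ι)ᶜ ≃ Fin d :=
    (Equiv.sumCongr (Equiv.ofInjective ι hι) (Equiv.refl _)).trans (Equiv.Set.sumCompl _)
  have hc2 : m + Fintype.card ↥(Set.range ι)ᶜ = d := by
    have := Fintype.card_congr e1
    rwa [Fintype.card_sum, Fintype.card_fin, Fintype.card_fin] at this
  let e2 : ↥(Set.range ι)ᶜ ≃ Basis.sumExtendIndex hf := Fintype.equivOfCardEq (by omega)
  let e3 : Fin d ≃ Fin m ⊕ Basis.sumExtendIndex hf :=
    e1.symm.trans (Equiv.sumCongr (Equiv.refl _) e2)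
  refine ⟨fun x => b (e3 x), b.linearIndependent.comp e3 e3.injective, fun i => ?_⟩
  have h1 : e1 (Sum.inl i) = ι i := by
    simp [e1]
  have h2 : e3 (ι i) = Sum.inl i := by
    simp only [e3, Equiv.trans_apply]
    rw [← h1, Equiv.symm_apply_apply]
    rfl
  change b (e3 (ι i)) = f i
  rw [h2]
  simp only [b, Basis.sumExtend, Basis.reindex_apply, Basis.extend_apply_self]
  rfl

end Vec

variable {A : Type v} [CommRing A] [Algebra k A]

/-- In an algebra of dimension at least two some `x`, `x * x` are independent. -/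
theorem exists_two [Infinite k] [Module.Finite k A] (hd : 2 ≤ finrank k A) :
    ∃ x : A, LinearIndependent k ![x, x * x] := by
  classical
  have : Nontrivial A := Module.nontrivial_of_finrank_pos (R := k) (by omega)
  obtain ⟨y, hy⟩ : ∃ y : A, LinearIndependent k ![(1 : A), y] := by
    obtain ⟨w, hw, hw1⟩ := exists_family (k := k) (A := A) rfl (fun i : Fin 1 => ⟨0, by omega⟩)
      (fun a b _ => Subsingleton.elim a b) (fun _ => (1 : A)) (LinearIndependent.of_subsingleton 0 one_ne_zero)
    refine ⟨w ⟨1, by omega⟩, ?_⟩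
    have h2 := hw.comp (fun i : Fin 2 => (⟨i, by omega⟩ : Fin (finrank k A)))
      (fun a b h => by simpa [Fin.ext_iff] using h)
    have h3 : ![(1 : A), w ⟨1, by omega⟩] =
        w ∘ (fun i : Fin 2 => (⟨i, by omega⟩ : Fin (finrank k A))) := by
      funext i
      fin_cases i
      · exact (hw1 0).symm
      · rfl
    rw [h3]
    exact h2
  rw [LinearIndependent.pair_iff] at hy
  by_cases hyy : LinearIndependent k ![y, y * y]
  · exact ⟨y, hyy⟩
  rw [LinearIndependent.pair_iff] at hyy
  push Not at hyy
  obtain ⟨s, t, hst, hne⟩ := hyy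
  have ht : t ≠ 0 := by
    rintro rfl
    rw [zero_smul, add_zero] at hst
    have hs := hne
    have h1 := hy 0 s (by rw [zero_smul, zero_add, hst])
    exact hs h1.2 rfl
  -- `y * y = l • y`
  obtain ⟨l, hl⟩ : ∃ l : k, y * y = l • y := by
    refine ⟨-(t⁻¹ * s), ?_⟩
    have h1 : y * y = t⁻¹ • (t • (y * y)) := by rw [smul_smul, inv_mul_cancel₀ ht, one_smul]
    have h2 : t • (y * y) = -(s • y) := by
      rw [eq_neg_iff_add_eq_zero, add_comm]
      exact hst
    rw [h1, h2, smul_neg, smul_smul, neg_smul]
  obtain ⟨c, hc⟩ : ∃ c : k, c ∉ ({0, -l} : Finset k) := Infinite.exists_notMem_finset _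
  simp only [Finset.mem_insert, Finset.mem_singleton, not_or] at hc
  refine ⟨y + algebraMap k A c, ?_⟩
  rw [LinearIndependent.pair_iff]
  intro a b hab
  have h1 : a • (y + algebraMap k A c) + b • ((y + algebraMap k A c) * (y + algebraMap k A c)) =
      (a * c + b * (c * c)) • (1 : A) + (a + b * (l + 2 * c)) • y := by
    have h3 : (y + algebraMap k A c) * (y + algebraMap k A c) =
        y * y + (2 * c) • y + (c * c) • (1 : A) := by
      simp only [Algebra.smul_def, map_mul, map_ofNat, mul_one]
      ring
    rw [h3, hl]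
    simp only [Algebra.smul_def, map_mul, map_add, map_ofNat, mul_one]
    ring
  rw [h1] at hab
  obtain ⟨h3, h4⟩ := hy _ _ hab
  have h5 : b * (-(c * (l + c))) = 0 := by linear_combination h3 - c * h4
  have h6 : -(c * (l + c)) ≠ 0 := by
    rw [neg_ne_zero]
    refine mul_ne_zero hc.1 fun h => hc.2 ?_
    linear_combination h
  have hb : b = 0 := (mul_eq_zero.1 h5).resolve_right h6
  subst hb
  refine ⟨?_, rfl⟩
  linear_combination h4

/-- In an algebra of dimension at least three some `x`, `y`, `x * y` are independent. -/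
theorem exists_three [Infinite k] [Module.Finite k A] (hd : 3 ≤ finrank k A) :
    ∃ x y : A, LinearIndependent k ![x, y, x * y] := by
  classical
  have : Nontrivial A := Module.nontrivial_of_finrank_pos (R := k) (by omega)
  obtain ⟨u, v, huv⟩ : ∃ u v : A, LinearIndependent k ![(1 : A), u, v] := by
    obtain ⟨w, hw, hw1⟩ := exists_family (k := k) (A := A) rfl (fun i : Fin 1 => ⟨0, by omega⟩)
      (fun a b _ => Subsingleton.elim a b) (fun _ => (1 : A)) (LinearIndependent.of_subsingleton 0 one_ne_zero)
    refine ⟨w ⟨1, by omega⟩, w ⟨2, by omega⟩, ?_⟩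
    have h2 := hw.comp (fun i : Fin 3 => (⟨i, by omega⟩ : Fin (finrank k A)))
      (fun a b h => by simpa [Fin.ext_iff] using h)
    have h3 : ![(1 : A), w ⟨1, by omega⟩, w ⟨2, by omega⟩] =
        w ∘ (fun i : Fin 3 => (⟨i, by omega⟩ : Fin (finrank k A))) := by
      funext i
      fin_cases i
      · exact (hw1 0).symm
      · rfl
      · rfl
    rw [h3]
    exact h2
  have h3 : ∀ a b c : k, a • (1 : A) + b • u + c • v = 0 → a = 0 ∧ b = 0 ∧ c = 0 := by
    intro a b c h
    rw [Fintype.linearIndependent_iff] at huv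
    have := huv ![a, b, c] (by simpa [Fin.sum_univ_three] using h)
    exact ⟨this 0, this 1, this 2⟩
  by_cases hu : LinearIndependent k ![u, v, u * v]
  · exact ⟨u, v, hu⟩
  -- `u * v = p + q u + r v`
  obtain ⟨p, q, r, hpqr⟩ : ∃ p q r : k, u * v = p • (1 : A) + q • u + r • v := by
    rw [Fintype.linearIndependent_iff] at hu
    push Not at hu
    obtain ⟨g, hg, i, hi⟩ := hu
    rw [Fin.sum_univ_three] at hg
    simp only [Matrix.cons_val_zero, Matrix.cons_val_one, Matrix.cons_val] at hg
    have h2 : g 2 ≠ 0 := by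
      intro h2
      rw [h2, zero_smul, add_zero] at hg
      obtain ⟨-, h5, h6⟩ := h3 0 (g 0) (g 1) (by rw [zero_smul, zero_add, hg])
      fin_cases i
      · exact hi h5
      · exact hi h6
      · exact hi h2
    refine ⟨0, -((g 2)⁻¹ * g 0), -((g 2)⁻¹ * g 1), ?_⟩
    have h4 : u * v = (g 2)⁻¹ • (g 2 • (u * v)) := by rw [smul_smul, inv_mul_cancel₀ h2, one_smul]
    have h5 : g 2 • (u * v) = -(g 0 • u + g 1 • v) := by
      rw [eq_neg_iff_add_eq_zero, add_comm]
      exact hg
    rw [h4, h5, smul_neg, smul_add, smul_smul, smul_smul, zero_smul, zero_add, neg_add, neg_smul,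
      neg_smul]
  obtain ⟨a, ha⟩ : ∃ a : k, a ∉ ({-r} : Finset k) := Infinite.exists_notMem_finset _
  have har : r + a ≠ 0 := by
    intro h
    apply ha
    rw [Finset.mem_singleton]
    linear_combination h
  obtain ⟨b, hb⟩ : ∃ b : k, b ∉ ({(p - a * q) / (r + a)} : Finset k) :=
    Infinite.exists_notMem_finset _
  have hdet : p - a * q - b * (r + a) ≠ 0 := by
    intro h
    apply hb
    rw [Finset.mem_singleton, eq_div_iff har]
    linear_combination -h
  refine ⟨u + algebraMap k A a, v + algebraMap k A b, ?_⟩
  rw [Fintype.linearIndependent_iff]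
  intro g hg
  rw [Fin.sum_univ_three] at hg
  simp only [Matrix.cons_val_zero, Matrix.cons_val_one, Matrix.cons_val] at hg
  have h1 : g 0 • (u + algebraMap k A a) + g 1 • (v + algebraMap k A b) +
      g 2 • ((u + algebraMap k A a) * (v + algebraMap k A b)) =
      (g 0 * a + g 1 * b + g 2 * (p + a * b)) • (1 : A) + (g 0 + g 2 * (q + b)) • u +
        (g 1 + g 2 * (r + a)) • v := by
    have h4 : (u + algebraMap k A a) * (v + algebraMap k A b) =
        u * v + b • u + a • v + (a * b) • (1 : A) := by
      simp only [Algebra.smul_def, map_mul, mul_one]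
      ring
    rw [h4, hpqr]
    simp only [Algebra.smul_def, map_mul, map_add, mul_one]
    ring
  rw [h1] at hg
  obtain ⟨e1, e2, e3⟩ := h3 _ _ _ hg
  have e4 : g 2 * (p - a * q - b * (r + a)) = 0 := by
    linear_combination e1 - a * e2 - b * e3
  have e5 : g 2 = 0 := (mul_eq_zero.1 e4).resolve_right hdet
  rw [e5, zero_mul, add_zero] at e2 e3
  intro i
  fin_cases i
  · exact e2
  · exact e3
  · exact e5

/-- For all `i j l` some independent family satisfies `w l = w i * w j`. -/
theorem exists_witness [Infinite k] [Module.Finite k A] {d : ℕ} (hd : finrank k A = d)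
    (i j l : Fin d) : ∃ w : Fin d → A, LinearIndependent k w ∧ w l = w i * w j := by
  have hpos : 0 < d := i.pos
  have hnt : Nontrivial A := Module.nontrivial_of_finrank_pos (R := k) (by omega)
  have one : ∀ m : Fin d, ∃ w : Fin d → A, LinearIndependent k w ∧ w m = 1 := by
    intro m
    obtain ⟨w, hw, hw1⟩ := exists_family (k := k) (A := A) hd (fun _ : Fin 1 => m)
      (fun a b _ => Subsingleton.elim a b) (fun _ => (1 : A)) (LinearIndependent.of_subsingleton 0 one_ne_zero)
    exact ⟨w, hw, hw1 0⟩
  by_cases hli : l = i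
  · subst hli
    obtain ⟨w, hw, h1⟩ := one j
    exact ⟨w, hw, by rw [h1, mul_one]⟩
  by_cases hlj : l = j
  · subst hlj
    obtain ⟨w, hw, h1⟩ := one i
    exact ⟨w, hw, by rw [h1, one_mul]⟩
  by_cases hij : i = j
  · subst hij
    have h2 : 2 ≤ finrank k A := by
      rw [hd]
      have := i.2
      have := l.2
      have : (l : ℕ) ≠ i := fun h => hli (Fin.ext h)
      omega
    obtain ⟨x, hx⟩ := exists_two (k := k) (A := A) h2
    obtain ⟨w, hw, h1⟩ := exists_family hd ![i, l] (by
      intro a b hab
      fin_cases a <;> fin_cases b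
      · rfl
      · exact absurd hab.symm hli
      · exact absurd hab hli
      · rfl) _ hx
    refine ⟨w, hw, ?_⟩
    have e0 := h1 0
    have e1 := h1 1
    simp only [Matrix.cons_val_zero, Matrix.cons_val_one] at e0 e1
    rw [e0, e1]
  · have h3 : 3 ≤ finrank k A := by
      rw [hd]
      have := i.2
      have := l.2
      have := j.2
      have : (l : ℕ) ≠ i := fun h => hli (Fin.ext h)
      have : (l : ℕ) ≠ j := fun h => hlj (Fin.ext h)
      have : (i : ℕ) ≠ j := fun h => hij (Fin.ext h)
      omega
    obtain ⟨x, y, hxy⟩ := exists_three (k := k) (A := A) h3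
    obtain ⟨w, hw, h1⟩ := exists_family hd ![i, j, l] (by
      intro a b hab
      fin_cases a <;> fin_cases b
      · rfl
      · exact absurd hab hij
      · exact absurd hab.symm hli
      · exact absurd hab.symm hij
      · rfl
      · exact absurd hab.symm hlj
      · exact absurd hab hli
      · exact absurd hab hlj
      · rfl) _ hxy
    refine ⟨w, hw, ?_⟩
    have e0 := h1 0
    have e1 := h1 1
    have e2 := h1 2
    simp only [Matrix.cons_val_zero, Matrix.cons_val_one, Matrix.cons_val] at e0 e1 e2
    rw [e0, e1, e2]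

end Pool.Agent.D0H93.AD
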