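import Mathlib

/-!
# Finite geometrically reduced algebras over a field split over a finite separable extension
-/

set_option autoImplicit false

universe u

namespace Pool.Agent.D0H93.AD

open Module TensorProduct

attribute [local instance] Ideal.Quotient.field in
theorem unramified_of_reduced (F : Type u) [Field F] [IsAlgClosed F] (C : Type u) [CommRing C]
    [Algebra F C] [Module.Finite F C] [IsReduced C] : Algebra.FormallyUnramified F C := by
  have : IsArtinianRing C := .of_finite F C
  have h1 : ∀ I : MaximalSpectrum C, Algebra.FormallyUnramified F (C ⧸ I.asIdeal) := by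
    intro I
    have hs : Function.Surjective (Algebra.ofId F (C ⧸ I.asIdeal)) :=
      (IsAlgClosed.algebraMap_bijective_of_isIntegral (k := F) (K := C ⧸ I.asIdeal)).2
    exact Algebra.FormallyUnramified.of_surjective (Algebra.ofId F (C ⧸ I.asIdeal)) hs
  have h2 : Algebra.FormallyUnramified F (∀ I : MaximalSpectrum C, C ⧸ I.asIdeal) := by
    rw [Algebra.FormallyUnramified.pi_iff]
    exact h1
  exact Algebra.FormallyUnramified.of_equiv ((IsArtinianRing.equivPi C).restrictScalars F).symm

/-- A finite geometrically reduced algebra has as many homomorphisms to some finite separable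
extension as its dimension. -/
theorem exists_homs (K : Type u) [Field K] (B : Type u) [CommRing B] [Algebra K B]
    [Module.Finite K B] (h : Algebra.IsGeometricallyReduced K B) :
    ∃ L : IntermediateField K (SeparableClosure K), FiniteDimensional K L ∧
      ∃ τ : Fin (finrank K B) → (B →ₐ[K] L), Function.Injective τ := by
  classical
  have h1 : IsReduced (AlgebraicClosure K ⊗[K] B) :=
    (Algebra.isGeometricallyReduced_field_iff K B).1 h
  have h2 : Algebra.FormallyUnramified (AlgebraicClosure K) (AlgebraicClosure K ⊗[K] B) :=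
    unramified_of_reduced _ _
  have h3 : Algebra.FormallyUnramified K B :=
    Algebra.FormallyUnramified.of_formallyUnramified_tensorProduct_of_faithfullyFlat
      (AlgebraicClosure K)
  let Ks := SeparableClosure K
  have h4 : Algebra.FormallyUnramified Ks (Ks ⊗[K] B) := inferInstance
  have h5 : Algebra.FormallyEtale Ks (Ks ⊗[K] B) :=
    Algebra.FormallyEtale.of_formallyUnramified_of_field Ks (Ks ⊗[K] B)
  let e : (Ks ⊗[K] B) ≃ₐ[Ks] (PrimeSpectrum (Ks ⊗[K] B) → Ks) :=
    Algebra.FormallyEtale.equivPiOfIsSepClosed Ks (Ks ⊗[K] B)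
  have hfin : Finite (PrimeSpectrum (Ks ⊗[K] B)) := by
    have hm : Module.Finite Ks (Ks ⊗[K] B) := inferInstance
    have : IsArtinianRing (Ks ⊗[K] B) := isArtinian_of_tower Ks inferInstance
    have : Finite (MaximalSpectrum (Ks ⊗[K] B)) := inferInstance
    exact Finite.of_equiv _ (IsArtinianRing.primeSpectrumEquivMaximalSpectrum
      (R := Ks ⊗[K] B)).symm
  have : Fintype (PrimeSpectrum (Ks ⊗[K] B)) := Fintype.ofFinite _
  have hcard : Fintype.card (PrimeSpectrum (Ks ⊗[K] B)) = finrank K B := by
    rw [← Module.finrank_baseChange (R := Ks) (S := K) (M' := B), e.toLinearEquiv.finrank_eq,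
      Module.finrank_fintype_fun_eq_card]
  let idx : Fin (finrank K B) ≃ PrimeSpectrum (Ks ⊗[K] B) :=
    (Fintype.equivFinOfCardEq hcard).symm
  let σ : PrimeSpectrum (Ks ⊗[K] B) → (B →ₐ[K] Ks) := fun p =>
    (((Pi.evalAlgHom Ks (fun _ : PrimeSpectrum (Ks ⊗[K] B) => Ks) p).comp
      (e : (Ks ⊗[K] B) →ₐ[Ks] _)).restrictScalars K).comp Algebra.TensorProduct.includeRight
  have hσ : ∀ p b, σ p b = e (1 ⊗ₜ b) p := fun p b => rfl
  have hσi : Function.Injective σ := by
    intro p q hpq
    have h6 : ∀ z : Ks ⊗[K] B, e z p = e z q := by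
      intro z
      induction z using TensorProduct.induction_on with
      | zero => simp
      | tmul s b =>
        have h7 : (s ⊗ₜ[K] b : Ks ⊗[K] B) = s • ((1 : Ks) ⊗ₜ[K] b) := by
          rw [TensorProduct.smul_tmul', smul_eq_mul, mul_one]
        rw [h7, map_smul, Pi.smul_apply, Pi.smul_apply, ← hσ, ← hσ, hpq]
      | add x y hx hy => rw [map_add, Pi.add_apply, Pi.add_apply, hx, hy]
    by_contra hne
    have h8 := h6 (e.symm (Pi.single p 1))
    rw [AlgEquiv.apply_symm_apply, Pi.single_eq_same, Pi.single_eq_of_ne (Ne.symm hne)] at h8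
    exact one_ne_zero h8
  -- the field generated by the images
  let b := Module.finBasis K B
  let S : Set Ks := Set.range fun x : PrimeSpectrum (Ks ⊗[K] B) × Fin (finrank K B) =>
    σ x.1 (b x.2)
  have hSfin : S.Finite := Set.finite_range _
  let L : IntermediateField K Ks := IntermediateField.adjoin K S
  have : Finite S := hSfin
  have hL : FiniteDimensional K L :=
    IntermediateField.finiteDimensional_adjoin fun x _ => Algebra.IsIntegral.isIntegral x
  have hmem : ∀ p x, σ p x ∈ L := by
    intro p x
    rw [← b.sum_repr x, map_sum]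
    refine sum_mem fun i _ => ?_
    rw [map_smul]
    exact L.smul_mem (IntermediateField.subset_adjoin K S ⟨(p, i), rfl⟩)
  refine ⟨L, hL, fun i => (σ (idx i)).codRestrict L.toSubalgebra (hmem (idx i)), ?_⟩
  intro i j hij
  apply idx.injective
  apply hσi
  refine AlgHom.ext fun x => ?_
  have h9 := DFunLike.congr_fun hij x
  exact congrArg (Subtype.val : L.toSubalgebra → Ks) h9

/-- An algebra with as many homomorphisms to a field as its rank splits over the field. -/
theorem split_of_homs {S F C : Type u} [CommRing S] [StrongRankCondition S] [Field F] [Algebra S F]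
    [CommRing C] [Algebra S C] [Module.Finite S C] [Module.Free S C]
    (ρ : Fin (finrank S C) → (C →ₐ[S] F)) (hρ : Function.Injective ρ) :
    Nonempty (F ⊗[S] C ≃ₐ[F] (Fin (finrank S C) → F)) := by
  classical
  let R : Fin (finrank S C) → (F ⊗[S] C →ₐ[F] F) := fun p =>
    Algebra.TensorProduct.lift (Algebra.ofId F F) (ρ p) fun _ _ => Commute.all _ _
  have hR : ∀ p c, R p (1 ⊗ₜ c) = ρ p c := fun p c => by simp [R]
  have hRi : Function.Injective fun p => ((R p : F ⊗[S] C →* F)) := by
    intro p q hpq
    apply hρ
    ext c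
    rw [← hR, ← hR]
    exact DFunLike.congr_fun hpq (1 ⊗ₜ c)
  let Φ : F ⊗[S] C →ₐ[F] (Fin (finrank S C) → F) := AlgHom.pi R
  have hΦ : ∀ z p, Φ z p = R p z := fun _ _ => rfl
  have hsurj : Function.Surjective Φ := by
    have h1 : LinearMap.range Φ.toLinearMap = ⊤ := by
      by_contra hne
      obtain ⟨f, hf0, hf⟩ := Submodule.exists_le_ker_of_lt_top _ (lt_top_iff_ne_top.2 hne)
      have h2 : ∀ z, ∑ p, f (Pi.single p 1) * R p z = 0 := by
        intro z
        have h3 : f (Φ z) = 0 := hf ⟨z, rfl⟩
        rw [← h3, LinearMap.pi_apply_eq_sum_univ f (Φ z)]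
        refine Finset.sum_congr rfl fun p _ => ?_
        rw [hΦ, smul_eq_mul, mul_comm]
        congr 2
        funext q
        simp [Pi.single_apply, eq_comm]
      have h4 := (linearIndependent_monoidHom (F ⊗[S] C) F).comp _ hRi
      rw [Fintype.linearIndependent_iff] at h4
      have h5 := h4 (fun p => f (Pi.single p 1)) (by
        funext z
        rw [Finset.sum_apply]
        exact h2 z)
      apply hf0
      refine LinearMap.pi_ext' fun p => LinearMap.ext_ring ?_
      exact h5 p
    intro y
    have : y ∈ LinearMap.range Φ.toLinearMap := by rw [h1]; trivial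
    exact this
  have hdim : finrank F (F ⊗[S] C) = finrank F (Fin (finrank S C) → F) := by
    rw [Module.finrank_baseChange, Module.finrank_fintype_fun_eq_card, Fintype.card_fin]
  have hinj : Function.Injective Φ :=
    (LinearMap.injective_iff_surjective_of_finrank_eq_finrank (f := Φ.toLinearMap) hdim).2 hsurj
  exact ⟨AlgEquiv.ofBijective Φ ⟨hinj, hsurj⟩⟩

theorem geomReduced_of_split {F D : Type u} [Field F] [CommRing D] [Algebra F D] {n : ℕ}
    (e : D ≃ₐ[F] (Fin n → F)) : Algebra.IsGeometricallyReduced F D := by
  classical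
  rw [Algebra.isGeometricallyReduced_field_iff]
  let e2 : AlgebraicClosure F ⊗[F] D ≃ₐ[AlgebraicClosure F] AlgebraicClosure F ⊗[F] (Fin n → F) :=
    Algebra.TensorProduct.congr AlgEquiv.refl e
  let e3 : AlgebraicClosure F ⊗[F] (Fin n → F) ≃ₐ[AlgebraicClosure F] (Fin n → AlgebraicClosure F) :=
    Algebra.TensorProduct.piScalarRight F (AlgebraicClosure F) (AlgebraicClosure F) (Fin n)
  exact isReduced_of_injective (e2.trans e3) (e2.trans e3).injective

end Pool.Agent.D0H93.AD
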