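import Pool.Agent.D0H93.AD.Generic

/-!
# Generic bases of finite free algebras over power series rings
-/

set_option autoImplicit false

universe u v

namespace Pool.Agent.D0H93.AD

open Module

variable {k : Type u} [Field k] {A : Type v} [CommRing A] [Algebra k A]

/-- The polynomial in the coordinates of the vectors `v i` whose value is the determinant of the
family `v` with `v l` replaced by `v i * v j`. -/
noncomputable def detPoly {d : ℕ} (e : Basis (Fin d) k A) (i j l : Fin d) :
    MvPolynomial (Fin d × Fin d) k :=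
  ((Matrix.of fun a m => MvPolynomial.X (a, m) : Matrix (Fin d) (Fin d)
    (MvPolynomial (Fin d × Fin d) k)).updateCol l fun m =>
      ∑ a, ∑ b, MvPolynomial.C (e.repr (e a * e b) m) * MvPolynomial.X (a, i) *
        MvPolynomial.X (b, j)).det

/-- The family of vectors with given coordinates. -/
noncomputable def fam {d : ℕ} (e : Basis (Fin d) k A) (g : Fin d × Fin d → k) (i : Fin d) : A :=
  ∑ a, g (a, i) • e a

theorem toMatrix_fam {d : ℕ} (e : Basis (Fin d) k A) (g : Fin d × Fin d → k) :
    e.toMatrix (fam e g) = Matrix.of fun a i => g (a, i) := by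
  ext a i
  rw [Basis.toMatrix_apply, fam, map_sum, Finsupp.finsetSum_apply, Matrix.of_apply]
  simp [Finsupp.single_apply]

theorem eval_detPoly {d : ℕ} (e : Basis (Fin d) k A) (g : Fin d × Fin d → k) (i j l : Fin d) :
    MvPolynomial.eval g (detPoly e i j l) =
      e.det (Function.update (fam e g) l (fam e g i * fam e g j)) := by
  rw [Basis.det_apply, detPoly, RingHom.map_det]
  congr 1
  ext a m
  rw [RingHom.mapMatrix_apply, Matrix.map_apply, Matrix.updateCol_apply, Basis.toMatrix_apply]
  by_cases hm : m = l
  · subst hm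
    rw [if_pos rfl, Function.update_self]
    have h1 : fam e g i * fam e g j = ∑ b, ∑ c, (g (b, i) * g (c, j)) • (e b * e c) := by
      rw [fam, fam, Finset.sum_mul_sum]
      refine Finset.sum_congr rfl fun b _ => Finset.sum_congr rfl fun c _ => ?_
      rw [smul_mul_smul_comm]
    rw [h1]
    simp only [map_sum, Finsupp.finsetSum_apply, map_smul, Finsupp.smul_apply, smul_eq_mul,
      map_mul, MvPolynomial.eval_C, MvPolynomial.eval_X]
    refine Finset.sum_congr rfl fun b _ => Finset.sum_congr rfl fun c _ => ?_
    ring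
  · rw [if_neg hm, Function.update_of_ne hm, Matrix.of_apply, MvPolynomial.eval_X]
    have := congrFun (congrFun (toMatrix_fam e g) a) m
    rw [Basis.toMatrix_apply, Matrix.of_apply] at this
    exact this.symm

theorem fam_surj {d : ℕ} (e : Basis (Fin d) k A) (w : Fin d → A) :
    ∃ g, fam e g = w := by
  refine ⟨fun p => e.repr (w p.2) p.1, ?_⟩
  funext i
  exact e.sum_repr (w i)

theorem det_ne_zero_iff {d : ℕ} (e : Basis (Fin d) k A) (w : Fin d → A) :
    e.det w ≠ 0 ↔ LinearIndependent k w := by
  have hfin : Module.Finite k A := Module.Finite.of_basis e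
  rw [← isUnit_iff_ne_zero, ← Module.Basis.is_basis_iff_det]
  refine ⟨fun h => h.1, fun h => ⟨h, ?_⟩⟩
  exact h.span_eq_top_of_card_eq_finrank' (by rw [Module.finrank_eq_card_basis e])

/-- A finite-dimensional commutative algebra over an infinite field has a basis with nonzero
structure constants. -/
theorem exists_generic [Infinite k] {d : ℕ} (e : Basis (Fin d) k A) :
    ∃ v : Basis (Fin d) k A, ∀ i j l, v.repr (v i * v j) l ≠ 0 := by
  have hfin : Module.Finite k A := Module.Finite.of_basis e
  have hd : finrank k A = d := by rw [Module.finrank_eq_card_basis e, Fintype.card_fin]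
  let P : MvPolynomial (Fin d × Fin d) k :=
    (Matrix.of fun a m => MvPolynomial.X (a, m) : Matrix (Fin d) (Fin d)
      (MvPolynomial (Fin d × Fin d) k)).det * ∏ i, ∏ j, ∏ l, detPoly e i j l
  have hdet : ∀ g, MvPolynomial.eval g (Matrix.of fun a m => MvPolynomial.X (a, m) :
      Matrix (Fin d) (Fin d) (MvPolynomial (Fin d × Fin d) k)).det = e.det (fam e g) := by
    intro g
    rw [Basis.det_apply, toMatrix_fam, RingHom.map_det]
    congr 1
    ext a m
    simp
  have h1 : P ≠ 0 := by
    refine mul_ne_zero ?_ (Finset.prod_ne_zero_iff.2 fun i _ => Finset.prod_ne_zero_iff.2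
      fun j _ => Finset.prod_ne_zero_iff.2 fun l _ => ?_)
    · intro h0
      obtain ⟨g, hg⟩ := fam_surj e e
      have h2 := hdet g
      rw [h0, map_zero, hg] at h2
      exact (det_ne_zero_iff e e).2 e.linearIndependent h2.symm
    · intro h0
      obtain ⟨w, hw, hwl⟩ := exists_witness (k := k) (A := A) hd i j l
      obtain ⟨g, hg⟩ := fam_surj e w
      have h2 := eval_detPoly e g i j l
      rw [h0, map_zero, hg, ← hwl, Function.update_eq_self] at h2
      exact (det_ne_zero_iff e w).2 hw h2.symm
  obtain ⟨g, hg⟩ : ∃ g, MvPolynomial.eval g P ≠ 0 := by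
    by_contra hcon
    push Not at hcon
    exact h1 (MvPolynomial.funext fun g => by rw [hcon g, map_zero])
  rw [map_mul, hdet, map_prod] at hg
  have hg1 : e.det (fam e g) ≠ 0 := left_ne_zero_of_mul hg
  have hg2 : ∀ i j l, e.det (Function.update (fam e g) l (fam e g i * fam e g j)) ≠ 0 := by
    intro i j l
    rw [← eval_detPoly]
    have h3 := Finset.prod_ne_zero_iff.1 (right_ne_zero_of_mul hg) i (Finset.mem_univ i)
    rw [map_prod] at h3
    have h4 := Finset.prod_ne_zero_iff.1 h3 j (Finset.mem_univ j)
    rw [map_prod] at h4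
    exact Finset.prod_ne_zero_iff.1 h4 l (Finset.mem_univ l)
  obtain ⟨hli, hsp⟩ := (Module.Basis.is_basis_iff_det e).2 (isUnit_iff_ne_zero.2 hg1)
  refine ⟨Basis.mk hli hsp.ge, fun i j l h0 => hg2 i j l ?_⟩
  set v := Basis.mk hli hsp.ge with hv
  have hvi : ∀ i, v i = fam e g i := fun i => Basis.mk_apply hli hsp.ge i
  rw [← hvi i, ← hvi j, ← v.sum_repr (v i * v j), AlternatingMap.map_update_sum]
  refine Finset.sum_eq_zero fun m _ => ?_
  rw [AlternatingMap.map_update_smul]
  by_cases hm : m = l
  · rw [hm, h0, zero_smul]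
  · rw [hvi m, AlternatingMap.map_update_self _ _ (Ne.symm hm), smul_zero]

/-- A homomorphism `π : B → A` with kernel `t B` is semilinear. -/
theorem special_smul {B : Type v} [CommRing B] [Algebra (PowerSeries k) B] (π : B →+* A)
    (hker : RingHom.ker π = Ideal.span {algebraMap (PowerSeries k) B PowerSeries.X})
    (hC : ∀ a : k, π (algebraMap (PowerSeries k) B (PowerSeries.C a)) = algebraMap k A a)
    (r : PowerSeries k) (b : B) : π (r • b) = PowerSeries.constantCoeff r • π b := by
  have hπX : π (algebraMap (PowerSeries k) B PowerSeries.X) = 0 := by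
    rw [← RingHom.mem_ker, hker]
    exact Ideal.subset_span rfl
  have hdecomp : r = PowerSeries.C (PowerSeries.constantCoeff r) +
      PowerSeries.X * (PowerSeries.mk fun n => PowerSeries.coeff (n + 1) r) := by
    ext n
    cases n with
    | zero => simp
    | succ n =>
      rw [map_add, PowerSeries.coeff_succ_X_mul, PowerSeries.coeff_mk, PowerSeries.coeff_C,
        if_neg (by omega), zero_add]
  have hπr : π (algebraMap (PowerSeries k) B r) =
      algebraMap k A (PowerSeries.constantCoeff r) := by
    conv_lhs => rw [hdecomp]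
    rw [map_add, map_mul, map_add, map_mul, hπX, zero_mul, add_zero, hC]
  rw [Algebra.smul_def, map_mul, hπr, Algebra.smul_def]

/-- The images of the elements of a basis in the special fibre form a basis. -/
theorem special_basis {B : Type v} [CommRing B] [Algebra (PowerSeries k) B]
    {d : ℕ} (c : Basis (Fin d) (PowerSeries k) B) (π : B →+* A) (hsurj : Function.Surjective π)
    (hker : RingHom.ker π = Ideal.span {algebraMap (PowerSeries k) B PowerSeries.X})
    (hC : ∀ a : k, π (algebraMap (PowerSeries k) B (PowerSeries.C a)) = algebraMap k A a) :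
    ∃ e : Basis (Fin d) k A, ∀ i, e i = π (c i) := by
  have hπs := special_smul (k := k) π hker hC
  have hli : LinearIndependent k fun i => π (c i) := by
    rw [Fintype.linearIndependent_iff]
    intro g hg
    have h1 : (∑ i, PowerSeries.C (g i) • c i) ∈ RingHom.ker π := by
      rw [RingHom.mem_ker, map_sum, ← hg]
      exact Finset.sum_congr rfl fun i _ => by rw [hπs, PowerSeries.constantCoeff_C]
    rw [hker, Ideal.mem_span_singleton'] at h1
    obtain ⟨b, hb⟩ := h1
    intro i
    have h2 : c.repr (∑ i, PowerSeries.C (g i) • c i) i = PowerSeries.C (g i) := by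
      rw [map_sum, Finsupp.finsetSum_apply]
      simp [Finsupp.single_apply]
    rw [← hb, mul_comm, ← Algebra.smul_def, map_smul, Finsupp.smul_apply, smul_eq_mul] at h2
    have h3 := congrArg PowerSeries.constantCoeff h2
    rw [map_mul, PowerSeries.constantCoeff_X, zero_mul, PowerSeries.constantCoeff_C] at h3
    exact h3.symm
  have hsp : ⊤ ≤ Submodule.span k (Set.range fun i => π (c i)) := by
    rintro a -
    obtain ⟨b, rfl⟩ := hsurj a
    rw [← c.sum_repr b, map_sum]
    refine Submodule.sum_mem _ fun i _ => ?_
    rw [hπs]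
    exact Submodule.smul_mem _ _ (Submodule.subset_span ⟨i, rfl⟩)
  exact ⟨Basis.mk hli hsp, fun i => Basis.mk_apply hli hsp i⟩

/-- Structure constants in a basis of a free algebra over `k[[t]]`: all of them are units for a
suitable basis. -/
theorem exists_unit_basis [Infinite k] {B : Type v} [CommRing B] [Algebra (PowerSeries k) B]
    {d : ℕ} (c : Basis (Fin d) (PowerSeries k) B) (π : B →+* A) (hsurj : Function.Surjective π)
    (hker : RingHom.ker π = Ideal.span {algebraMap (PowerSeries k) B PowerSeries.X})
    (hC : ∀ a : k, π (algebraMap (PowerSeries k) B (PowerSeries.C a)) = algebraMap k A a) :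
    ∃ V : Basis (Fin d) (PowerSeries k) B, ∀ i j l,
      PowerSeries.constantCoeff (V.repr (V i * V j) l) ≠ 0 := by
  have hπs := special_smul (k := k) π hker hC
  obtain ⟨e, he⟩ := special_basis c π hsurj hker hC
  obtain ⟨v, hv⟩ := exists_generic e
  -- the lift
  let V0 : Fin d → B := fun i => ∑ a, PowerSeries.C (e.repr (v i) a) • c a
  have hV0 : ∀ i, π (V0 i) = v i := by
    intro i
    simp only [V0]
    rw [map_sum]
    conv_rhs => rw [← e.sum_repr (v i)]
    exact Finset.sum_congr rfl fun a _ => by rw [hπs, PowerSeries.constantCoeff_C, he]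
  have hdet : IsUnit (c.det V0) := by
    have h1 : c.det V0 = PowerSeries.C (e.det v) := by
      rw [Basis.det_apply, Basis.det_apply, RingHom.map_det]
      congr 1
      ext1 a i
      rw [RingHom.mapMatrix_apply, Matrix.map_apply, Basis.toMatrix_apply, Basis.toMatrix_apply]
      simp only [V0]
      rw [map_sum, Finsupp.finsetSum_apply]
      simp [Finsupp.single_apply]
    rw [h1]
    exact (isUnit_iff_ne_zero.2 ((det_ne_zero_iff e v).2 v.linearIndependent)).map PowerSeries.C
  obtain ⟨hVli, hVsp⟩ := (Module.Basis.is_basis_iff_det c).2 hdet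
  let V : Basis (Fin d) (PowerSeries k) B := Basis.mk hVli hVsp.ge
  have hV : ∀ i, V i = V0 i := fun i => Basis.mk_apply hVli hVsp.ge i
  refine ⟨V, fun i j l => ?_⟩
  have h1 : π (V i * V j) = v i * v j := by rw [map_mul, hV, hV, hV0, hV0]
  have h2 : v i * v j = ∑ m, PowerSeries.constantCoeff (V.repr (V i * V j) m) • v m := by
    rw [← h1]
    conv_lhs => rw [← V.sum_repr (V i * V j)]
    rw [map_sum]
    exact Finset.sum_congr rfl fun m _ => by rw [hπs, hV m, hV0]
  have h3 : v.repr (v i * v j) l = PowerSeries.constantCoeff (V.repr (V i * V j) l) := by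
    rw [h2, map_sum, Finsupp.finsetSum_apply]
    simp [Finsupp.single_apply]
  rw [← h3]
  exact hv i j l

end Pool.Agent.D0H93.AD
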