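import Pool.Agent.D0H93.AD.Defs
import Pool.Agent.D0H93.AD.Lift
import Pool.Agent.D0H93.AD.Embed
import Pool.Agent.D0H93.AD.Homs

/-!
# Completely split abstract smoothings of approximation degree zero
-/

set_option autoImplicit false

universe u

namespace Pool.Agent.D0H93.AD

open Module TensorProduct

section

variable {k : Type u} [Field k] {A : Type u} [CommRing A] [Algebra k A]

theorem exists_basis (S : AbstractSmoothing k A) :
    Nonempty (Basis (Fin (finrank k A)) (PowerSeries k) S.carrier) := by
  have := S.finite
  have := S.flat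
  have : Module.Free (PowerSeries k) S.carrier := Module.free_of_flat_of_isLocalRing
  let c := Module.finBasis (PowerSeries k) S.carrier
  obtain ⟨e, -⟩ := special_basis c S.toSpecial S.surjective S.ker_eq S.map_const
  have h : finrank k A = finrank (PowerSeries k) S.carrier := by
    rw [Module.finrank_eq_card_basis e, Fintype.card_fin]
  rw [h]
  exact ⟨c⟩

/-- A basis all of whose structure constants are units. -/
theorem exists_basis_units [Infinite k] (S : AbstractSmoothing k A) :
    ∃ V : Basis (Fin (finrank k A)) (PowerSeries k) S.carrier,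
      (∀ i j l, IsUnit (V.repr (V i * V j) l)) ∧ ad V = 0 := by
  obtain ⟨c⟩ := exists_basis S
  obtain ⟨V, hV⟩ := exists_unit_basis c S.toSpecial S.surjective S.ker_eq S.map_const
  have hu : ∀ i j l, IsUnit (V.repr (V i * V j) l) := fun i j l =>
    PowerSeries.isUnit_iff_constantCoeff.2 (isUnit_iff_ne_zero.2 (hV i j l))
  refine ⟨V, hu, ?_⟩
  have h1 : ad V = 0 := by
    have h2 : {m | ∃ i j l, V.repr (V i * V j) l ≠ 0 ∧ m = (V.repr (V i * V j) l).order.toNat} ⊆
        {0} := by
      rintro m ⟨i, j, l, -, rfl⟩
      rw [Set.mem_singleton_iff, PowerSeries.order_zero_of_unit]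
      · rfl
      · exact hu i j l
    unfold ad
    rcases Set.subset_singleton_iff_eq.1 h2 with h3 | h3
    · rw [h3, csSup_empty]
      rfl
    · rw [h3, csSup_singleton]
  exact h1

theorem approximationDegree_eq_zero [Infinite k] (S : AbstractSmoothing k A) :
    S.approximationDegree = 0 := by
  obtain ⟨V, -, h1⟩ := exists_basis_units S
  apply Nat.sInf_eq_zero.2
  left
  exact ⟨V, h1.symm⟩

end

/-! ### Base change -/

/-- `k[[s]]` as an algebra over `k[[t]]` by means of `φ`. -/
def PS {k : Type u} [Field k] (_φ : PowerSeries k →+* PowerSeries k) : Type u := PowerSeries k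

/-- `k((s))` as an algebra over `k[[t]]` by means of `φ`. -/
def LS {k : Type u} [Field k] (_φ : PowerSeries k →+* PowerSeries k) : Type u := LaurentSeries k

variable {k : Type u} [Field k]

noncomputable instance (φ : PowerSeries k →+* PowerSeries k) : CommRing (PS φ) :=
  inferInstanceAs (CommRing (PowerSeries k))

instance (φ : PowerSeries k →+* PowerSeries k) : Nontrivial (PS φ) :=
  inferInstanceAs (Nontrivial (PowerSeries k))

noncomputable instance (φ : PowerSeries k →+* PowerSeries k) : Field (LS φ) :=
  inferInstanceAs (Field (LaurentSeries k))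

noncomputable instance (φ : PowerSeries k →+* PowerSeries k) : Algebra (PowerSeries k) (PS φ) :=
  RingHom.toAlgebra (S := PS φ) φ

noncomputable instance (φ : PowerSeries k →+* PowerSeries k) : Algebra (PS φ) (LS φ) :=
  inferInstanceAs (Algebra (PowerSeries k) (LaurentSeries k))

noncomputable instance (φ : PowerSeries k →+* PowerSeries k) : Algebra (PowerSeries k) (LS φ) :=
  ((algebraMap (PS φ) (LS φ)).comp (algebraMap (PowerSeries k) (PS φ))).toAlgebra

instance (φ : PowerSeries k →+* PowerSeries k) : IsScalarTower (PowerSeries k) (PS φ) (LS φ) :=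
  IsScalarTower.of_algebraMap_eq fun _ => rfl

variable {A : Type u} [CommRing A] [Algebra k A]

/-- The base change is completely split. -/
theorem baseChange_split [IsAlgClosed k] (S : AbstractSmoothing k A) :
    ∃ φ : PowerSeries k →+* PowerSeries k,
      (∀ a, PowerSeries.constantCoeff (φ a) = PowerSeries.constantCoeff a) ∧
      (∀ c : k, φ (PowerSeries.C c) = PowerSeries.C c) ∧
      Nonempty ((LS φ ⊗[PS φ] (PS φ ⊗[PowerSeries k] S.carrier)) ≃ₐ[LS φ]
        (Fin (finrank k A) → LS φ)) := by
  have := S.finite
  have := S.flat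
  have hfree : Module.Free (PowerSeries k) S.carrier := Module.free_of_flat_of_isLocalRing
  have hrank : finrank (PowerSeries k) S.carrier = finrank k A := by
    obtain ⟨c⟩ := exists_basis S
    rw [Module.finrank_eq_card_basis c, Fintype.card_fin]
  obtain ⟨L, hL, τ, hτ⟩ := exists_homs (LaurentSeries k)
    (LaurentSeries k ⊗[PowerSeries k] S.carrier) S.geometricallyReduced
  have hn : finrank (LaurentSeries k) (LaurentSeries k ⊗[PowerSeries k] S.carrier) =
      finrank k A := by
    rw [Module.finrank_baseChange, hrank]
  obtain ⟨g, φ, hg, hφ1, hφ2⟩ := embed_finite k L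
  refine ⟨φ, hφ1, hφ2, ?_⟩
  -- homomorphisms from `𝒜` to `k((s))` over `φ`
  let χ : Fin (finrank (LaurentSeries k) (LaurentSeries k ⊗[PowerSeries k] S.carrier)) →
      (S.carrier →ₐ[PowerSeries k] LS φ) := fun p =>
    { toRingHom := (g.comp (τ p : _ →+* L)).comp
        (Algebra.TensorProduct.includeRight : S.carrier →ₐ[PowerSeries k]
          LaurentSeries k ⊗[PowerSeries k] S.carrier).toRingHom
      commutes' := by
        intro r
        change g (τ p (1 ⊗ₜ algebraMap (PowerSeries k) S.carrier r)) = _
        have h1 : ((1 : LaurentSeries k) ⊗ₜ[PowerSeries k] algebraMap (PowerSeries k) S.carrier r :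
            LaurentSeries k ⊗[PowerSeries k] S.carrier) =
            algebraMap (LaurentSeries k) _ (algebraMap (PowerSeries k) (LaurentSeries k) r) := by
          rw [Algebra.TensorProduct.algebraMap_apply, Algebra.algebraMap_eq_smul_one r,
            Algebra.algebraMap_eq_smul_one r, TensorProduct.tmul_smul, TensorProduct.smul_tmul']
          rfl
        rw [h1, AlgHom.commutes, hg]
        rfl }
  have hχ : ∀ p a, χ p a = g (τ p (1 ⊗ₜ a)) := fun _ _ => rfl
  have hχi : Function.Injective χ := by
    intro p q hpq
    apply hτ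
    refine AlgHom.ext fun z => ?_
    induction z using TensorProduct.induction_on with
    | zero => simp
    | tmul s b =>
      have h7 : (s ⊗ₜ[PowerSeries k] b : LaurentSeries k ⊗[PowerSeries k] S.carrier) =
          s • ((1 : LaurentSeries k) ⊗ₜ[PowerSeries k] b) := by
        rw [TensorProduct.smul_tmul', smul_eq_mul, mul_one]
      rw [h7, map_smul, map_smul]
      congr 1
      apply g.injective
      rw [← hχ, ← hχ, hpq]
    | add x y hx hy => rw [map_add, map_add, hx, hy]
  have hC : finrank (PS φ) (PS φ ⊗[PowerSeries k] S.carrier) = finrank k A := by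
    rw [Module.finrank_baseChange, hrank]
  have hfin : Module.Finite (PS φ) (PS φ ⊗[PowerSeries k] S.carrier) := inferInstance
  have hfr : Module.Free (PS φ) (PS φ ⊗[PowerSeries k] S.carrier) := inferInstance
  let ρ : Fin (finrank (PS φ) (PS φ ⊗[PowerSeries k] S.carrier)) →
      ((PS φ ⊗[PowerSeries k] S.carrier) →ₐ[PS φ] LS φ) := fun p =>
    Algebra.TensorProduct.lift (Algebra.ofId (PS φ) (LS φ))
      (χ (Fin.cast (hC.trans hn.symm) p)) fun _ _ => Commute.all _ _
  have hρ : ∀ p a, ρ p (1 ⊗ₜ a) = χ (Fin.cast (hC.trans hn.symm) p) a := fun p a => by simp [ρ]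
  have hρi : Function.Injective ρ := by
    intro p q hpq
    have h8 : χ (Fin.cast (hC.trans hn.symm) p) = χ (Fin.cast (hC.trans hn.symm) q) := by
      refine AlgHom.ext fun a => ?_
      rw [← hρ, ← hρ, hpq]
    exact Fin.cast_injective _ (hχi h8)
  have h9 := split_of_homs (S := PS φ) (F := LS φ) ρ hρi
  rw [hC] at h9
  exact h9

/-- Every smoothable finite algebra has a completely split abstract smoothing. -/
theorem exists_completelySplit [IsAlgClosed k] (S : AbstractSmoothing k A) :
    ∃ S' : AbstractSmoothing k A, S'.IsCompletelySplit := by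
  obtain ⟨φ, hφ1, hφ2, ⟨E⟩⟩ := baseChange_split S
  have := S.finite
  have := S.flat
  have hfree : Module.Free (PowerSeries k) S.carrier := Module.free_of_flat_of_isLocalRing
  have hgr := geomReduced_of_split E
  let RA : Algebra (PowerSeries k) A :=
    ((algebraMap k A).comp (PowerSeries.constantCoeff (R := k))).toAlgebra
  let f1 : PS φ →ₐ[PowerSeries k] A :=
    { toRingHom := (algebraMap k A).comp (PowerSeries.constantCoeff (R := k) : PS φ →+* k)
      commutes' := fun r => congrArg (algebraMap k A) (hφ1 r) }
  have hπs := special_smul (k := k) S.toSpecial S.ker_eq S.map_const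
  let f2 : S.carrier →ₐ[PowerSeries k] A :=
    { toRingHom := S.toSpecial
      commutes' := by
        intro r
        change S.toSpecial (algebraMap (PowerSeries k) S.carrier r) = _
        rw [Algebra.algebraMap_eq_smul_one, hπs, map_one, Algebra.smul_def, mul_one]
        rfl }
  let π : (PS φ ⊗[PowerSeries k] S.carrier) →ₐ[PowerSeries k] A :=
    Algebra.TensorProduct.productMap f1 f2
  have hπ : ∀ s b, π (s ⊗ₜ b) = f1 s * f2 b := fun s b => Algebra.TensorProduct.productMap_apply_tmul _ _ _ _
  let c := Module.finBasis (PowerSeries k) S.carrier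
  obtain ⟨e, he⟩ := special_basis c S.toSpecial S.surjective S.ker_eq S.map_const
  let X' : PS φ := (PowerSeries.X : PowerSeries k)
  have hf1X : f1 X' = 0 := by
    change algebraMap k A (PowerSeries.constantCoeff (PowerSeries.X : PowerSeries k)) = 0
    rw [PowerSeries.constantCoeff_X, map_zero]
  have hker : RingHom.ker (π : (PS φ ⊗[PowerSeries k] S.carrier) →+* A) =
      Ideal.span {algebraMap (PS φ) (PS φ ⊗[PowerSeries k] S.carrier) X'} := by
    apply le_antisymm
    · intro z hz
      rw [RingHom.mem_ker] at hz
      let bc := Algebra.TensorProduct.basis (PS φ) c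
      have h1 : z = ∑ i, bc.repr z i • bc i := (bc.sum_repr z).symm
      have h2 : ∀ i (s : PS φ), π (s • bc i) = algebraMap k A
          (PowerSeries.constantCoeff (s : PowerSeries k)) * S.toSpecial (c i) := by
        intro i s
        have h3 : s • bc i = s ⊗ₜ[PowerSeries k] c i := by
          rw [Algebra.TensorProduct.basis_apply, TensorProduct.smul_tmul', smul_eq_mul, mul_one]
        rw [h3, hπ]
        rfl
      have h4 : ∑ i, PowerSeries.constantCoeff (bc.repr z i : PowerSeries k) • e i = 0 := by
        rw [← hz]
        conv_rhs => rw [h1]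
        change _ = π _
        rw [map_sum]
        refine Finset.sum_congr rfl fun i _ => ?_
        rw [h2, he, Algebra.smul_def]
      have h5 : ∀ i, PowerSeries.constantCoeff (bc.repr z i : PowerSeries k) = 0 := by
        have := Fintype.linearIndependent_iff.1 e.linearIndependent _ h4
        exact this
      rw [h1]
      refine Ideal.sum_mem _ fun i _ => ?_
      obtain ⟨r, h6⟩ : ∃ r : PS φ, bc.repr z i = X' * r := by
        obtain ⟨r, hr⟩ : (PowerSeries.X : PowerSeries k) ∣ (bc.repr z i : PowerSeries k) :=
          PowerSeries.X_dvd_iff.2 (h5 i)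
        exact ⟨r, hr⟩
      rw [h6, mul_smul, Algebra.smul_def X']
      exact Ideal.mul_mem_right _ _ (Ideal.subset_span rfl)
    · rw [Ideal.span_le, Set.singleton_subset_iff]
      change π (algebraMap (PS φ) (PS φ ⊗[PowerSeries k] S.carrier) X') = 0
      rw [Algebra.TensorProduct.algebraMap_apply]
      change π (X' ⊗ₜ 1) = 0
      rw [hπ, hf1X, zero_mul]
  refine ⟨{ carrier := PS φ ⊗[PowerSeries k] S.carrier
            algebra := (inferInstance : Algebra (PS φ) (PS φ ⊗[PowerSeries k] S.carrier))
            finite := (inferInstance : Module.Finite (PS φ) (PS φ ⊗[PowerSeries k] S.carrier))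
            flat := (inferInstance : Module.Flat (PS φ) (PS φ ⊗[PowerSeries k] S.carrier))
            geometricallyReduced := hgr
            toSpecial := (π : (PS φ ⊗[PowerSeries k] S.carrier) →+* A)
            surjective := ?_
            ker_eq := hker
            map_const := ?_ }, ⟨E⟩⟩
  · intro a
    obtain ⟨b, rfl⟩ := S.surjective a
    refine ⟨1 ⊗ₜ b, ?_⟩
    change π (1 ⊗ₜ b) = _
    rw [hπ, map_one, one_mul]
    rfl
  · intro a
    refine (hπ (PowerSeries.C a : PowerSeries k) 1).trans ?_
    rw [map_one, mul_one]
    change algebraMap k A (PowerSeries.constantCoeff (PowerSeries.C a)) = _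
    rw [PowerSeries.constantCoeff_C]

end Pool.Agent.D0H93.AD
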